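import Pool.Agent.Q20.EX.Stm
import Pool.Agent.Q125.AR.NKer

/-!
# Project EX: job CF (helper251), with the second inequality, the kernel of the Artin map and Chebotarev's
theorem as hypotheses: abelian extensions are class fields
-/

set_option autoImplicit false
set_option linter.unusedSectionVars false
set_option linter.deprecated false

namespace Pool.Agent.Q251.EX

open NumberField IsDedekindDomain Pool.Agent.Q5.BR Pool.Agent.Q92.AR Pool.Agent.Q20.EX
open Pool.Agent.Q125.AR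

theorem card_dual (A : Type) [CommGroup A] [Finite A] : Nat.card (A →* ℂˣ) = Nat.card A := by
  have : NeZero (Monoid.exponent A) := ⟨Monoid.exponent_ne_zero_of_finite⟩
  exact CommGroup.card_monoidHom_of_hasEnoughRootsOfUnity A ℂ

theorem card_dual' (G : Type) [hG : Group G] [Finite G] (hc : ∀ g h : G, g * h = h * g) :
    Nat.card (G →* ℂˣ) = Nat.card G := by
  letI : CommGroup G := { hG with mul_comm := hc }
  exact card_dual G

theorem card_dual_add (Q : Type) [AddCommGroup Q] [Finite Q] :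
    Nat.card (Q →+ Additive ℂˣ) = Nat.card Q := by
  have h1 := card_dual (Multiplicative Q)
  rw [← Nat.card_congr (AddMonoidHom.toMultiplicativeLeft (α := Q) (β := ℂˣ))] at h1
  rw [h1]
  rfl

theorem cf' (hSec : S_Sec) (hNK : S_NKer) (hC : S_Cheb) : S_CF := by
  intro F M _ _ _ _ _ _ hcomm N hN hR hray χ hχ
  classical
  obtain ⟨s1, s2⟩ := hSec F M N hN
  have hfi : ((HN F M N).addSubgroupOf (Pr F N)).FiniteIndex := ⟨s1⟩
  have hfin : Finite (Pr F N ⧸ (HN F M N).addSubgroupOf (Pr F N)) :=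
    AddSubgroup.finite_quotient_of_finiteIndex
  have hcard : Nat.card (Pr F N ⧸ (HN F M N).addSubgroupOf (Pr F N)) ≤
      Nat.card (M ≃ₐ[F] M) := by
    rw [IsGalois.card_aut_eq_finrank]
    exact s2
  have hkill : ∀ ψ : (M ≃ₐ[F] M) →* ℂˣ, ∀ D ∈ HN F M N, art ψ D = 0 := fun ψ D hD =>
    HN_le_ker hNK ψ hN hR (hray ψ) hD
  let lift : (θ : Dv F →+ Additive ℂˣ) → (∀ D ∈ HN F M N, θ D = 0) →
      (Pr F N ⧸ (HN F M N).addSubgroupOf (Pr F N) →+ Additive ℂˣ) := fun θ h =>
    QuotientAddGroup.lift _ (θ.comp (Pr F N).subtype) (fun x hx => h x.1 hx)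
  have hlift : ∀ (θ : Dv F →+ Additive ℂˣ) (h : ∀ D ∈ HN F M N, θ D = 0) (D : Pr F N),
      lift θ h (QuotientAddGroup.mk D) = θ (D : Dv F) := fun _ _ _ => rfl
  let Ψ : ((M ≃ₐ[F] M) →* ℂˣ) → (Pr F N ⧸ (HN F M N).addSubgroupOf (Pr F N) →+ Additive ℂˣ) :=
    fun ψ => lift (art ψ) (hkill ψ)
  have hinj : Function.Injective Ψ := by
    intro ψ ψ' he
    refine MonoidHom.ext fun g => ?_
    obtain ⟨v, hv, hu, hg⟩ := hC F M g _ (finite_dvd (F := F) hN)
    have hD : (Finsupp.single v 1 : Dv F) ∈ Pr F N := by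
      intro v' hv'
      rw [Finsupp.single_apply, if_neg]
      rintro rfl
      exact hv hv'
    have h1 : Ψ ψ (QuotientAddGroup.mk ⟨_, hD⟩) = Ψ ψ' (QuotientAddGroup.mk ⟨_, hD⟩) := by rw [he]
    have h2 : art ψ (Finsupp.single v 1) = art ψ' (Finsupp.single v 1) := h1
    rw [art_single, art_single, one_smul, one_smul, chi_frob hu (frob_spec v) hg,
      chi_frob hu (frob_spec v) hg] at h2
    exact Additive.ofMul.injective h2
  have hfin2 : Finite (Pr F N ⧸ (HN F M N).addSubgroupOf (Pr F N) →+ Additive ℂˣ) := by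
    apply Nat.finite_of_card_ne_zero
    rw [card_dual_add]
    exact Nat.card_pos.ne'
  have hbij := hinj.bijective_of_nat_card_le (by
    rw [card_dual_add, card_dual' _ hcomm]
    exact hcard)
  obtain ⟨ψ, hψ⟩ := hbij.2 (lift χ hχ)
  refine ⟨ψ, fun D hD => ?_⟩
  have h1 : Ψ ψ (QuotientAddGroup.mk ⟨D, hD⟩) = lift χ hχ (QuotientAddGroup.mk ⟨D, hD⟩) := by
    rw [hψ]
  exact h1

end Pool.Agent.Q251.EX
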