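import Pool.Agent.Q240.EX.Stm5
import Pool.Agent.Q24.CD.PosZ

set_option autoImplicit false

/-!
# Project EX: `S_UnivP` (helper251)

Minimisers of the quotient of Weil's form and a norm `Nw w`: their transforms are proportional, all zeros are on the line.
-/

open Filter Topology MeasureTheory
open scoped ComplexConjugate

namespace Pool.Agent.Q251.EX

open Pool.Agent.Y23 Pool.Agent.Q240.CD Pool.Agent.Q240.EX

attribute [local instance] Pool.Agent.Y23.Z.ZL

/-- square integrability of the transform on the line -/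
def Iw (w : Measure ℝ) (f : ℝ → ℂ) : Prop := Integrable (fun x : ℝ => ‖TT f (Complex.I * x)‖ ^ 2) w

lemma Iw_of_pos {w : Measure ℝ} {f : ℝ → ℂ} (h : 0 < Nw w f) : Iw w f := by
  by_contra hc
  have h1 : Nw w f = 0 := integral_undef hc
  rw [h1] at h
  exact lt_irrefl _ h

lemma Nw_nonneg (w : Measure ℝ) (f : ℝ → ℂ) : 0 ≤ Nw w f := integral_nonneg fun x => by positivity

lemma cont_line {a : ℝ} {f : ℝ → ℂ} (hf : Fa a f) : Continuous (fun x : ℝ => ‖TT f (Complex.I * x)‖ ^ 2) := by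
  have h1 : Continuous (TT f) := (differentiable_TT hf).continuous
  have h2 : Continuous (fun x : ℝ => TT f (Complex.I * x)) := h1.comp (by fun_prop)
  exact h2.norm.pow 2

lemma para (x y : ℂ) : ‖x + y‖ ^ 2 + ‖x - y‖ ^ 2 = 2 * ‖x‖ ^ 2 + 2 * ‖y‖ ^ 2 := by
  have := parallelogram_law_with_norm ℝ x y
  nlinarith [this]

lemma Iw_smul {w : Measure ℝ} {f : ℝ → ℂ} (h : Iw w f) (c : ℂ) : Iw w (fun x => c * f x) := by
  unfold Iw at *
  refine (h.const_mul (‖c‖ ^ 2)).congr (Eventually.of_forall fun x => ?_)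
  simp only
  rw [TT_smul, norm_mul, mul_pow]

lemma Nw_smul (w : Measure ℝ) (f : ℝ → ℂ) (c : ℂ) : Nw w (fun x => c * f x) = ‖c‖ ^ 2 * Nw w f := by
  unfold Nw
  rw [← integral_const_mul]
  refine integral_congr_ae (Eventually.of_forall fun x => ?_)
  simp only
  rw [TT_smul, norm_mul, mul_pow]

lemma Iw_add {w : Measure ℝ} {a : ℝ} {f g : ℝ → ℂ} (hf : Fa a f) (hg : Fa a g) (h1 : Iw w f) (h2 : Iw w g) :
    Iw w (fun x => f x + g x) ∧ Iw w (fun x => f x - g x) := by
  have hbig : Integrable (fun x : ℝ => 2 * ‖TT f (Complex.I * x)‖ ^ 2 + 2 * ‖TT g (Complex.I * x)‖ ^ 2) w :=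
    (Integrable.const_mul h1 2).add (Integrable.const_mul h2 2)
  constructor
  · refine hbig.mono' (cont_line (hf.add hg)).aestronglyMeasurable (Eventually.of_forall fun x => ?_)
    rw [TT_add hf hg, Real.norm_eq_abs, abs_of_nonneg (by positivity), ← para]
    have := sq_nonneg ‖TT f (Complex.I * x) - TT g (Complex.I * x)‖
    linarith
  · refine hbig.mono' (cont_line (hf.sub hg)).aestronglyMeasurable (Eventually.of_forall fun x => ?_)
    rw [TT_sub hf hg, Real.norm_eq_abs, abs_of_nonneg (by positivity), ← para]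
    have := sq_nonneg ‖TT f (Complex.I * x) + TT g (Complex.I * x)‖
    linarith

lemma Nw_para {w : Measure ℝ} {a : ℝ} {f g : ℝ → ℂ} (hf : Fa a f) (hg : Fa a g) (h1 : Iw w f) (h2 : Iw w g) :
    Nw w (fun x => f x + g x) + Nw w (fun x => f x - g x) = 2 * Nw w f + 2 * Nw w g := by
  obtain ⟨h3, h4⟩ := Iw_add hf hg h1 h2
  unfold Nw
  rw [← integral_add h3 h4, ← integral_const_mul, ← integral_const_mul,
    ← integral_add (Integrable.const_mul h1 2) (Integrable.const_mul h2 2)]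
  refine integral_congr_ae (Eventually.of_forall fun x => ?_)
  simp only
  rw [TT_add hf hg, TT_sub hf hg, para]

lemma QQ_smul' (hRH : ∀ ρ : Zt, (ρ : ℂ).re = 1 / 2) (f : ℝ → ℂ) (c : ℂ) :
    QQ (fun x => c * f x) = ‖c‖ ^ 2 * QQ f := by
  rw [Pool.Agent.Q24.CD.QQ_crit hRH, Pool.Agent.Q24.CD.QQ_crit hRH, ← tsum_mul_left]
  refine tsum_congr fun ρ => ?_
  rw [TT_smul, norm_mul]
  ring

lemma QQ_para (hRH : ∀ ρ : Zt, (ρ : ℂ).re = 1 / 2) {a : ℝ} (ha : 0 < a) {ν : ℕ∞} {f g : ℝ → ℂ} (hf : G.F.Hn a ν f)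
    (hg : G.F.Hn a ν g) : QQ (fun x => f x + g x) + QQ (fun x => f x - g x) = 2 * QQ f + 2 * QQ g := by
  have d1 : Dom f := ((Hd_iff ha f).1 hf.hd).2
  have d2 : Dom g := ((Hd_iff ha g).1 hg.hd).2
  have d3 : Dom (fun x => f x + g x) := ((Hd_iff ha _).1 (hf.add hg).hd).2
  have d4 : Dom (fun x => f x - g x) := ((Hd_iff ha _).1 (hf.sub hg).hd).2
  rw [Pool.Agent.Q24.CD.QQ_crit hRH, Pool.Agent.Q24.CD.QQ_crit hRH, Pool.Agent.Q24.CD.QQ_crit hRH,
    Pool.Agent.Q24.CD.QQ_crit hRH, ← Summable.tsum_add d3 d4, ← tsum_mul_left, ← tsum_mul_left,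
    ← Summable.tsum_add (Summable.mul_left 2 d1) (Summable.mul_left 2 d2)]
  refine tsum_congr fun ρ => ?_
  rw [TT_add hf.1 hg.1, TT_sub hf.1 hg.1, ← mul_add, para]
  ring

/-- two minimisers are proportional -/
lemma pair (hRH : ∀ ρ : Zt, (ρ : ℂ).re = 1 / 2) {w : Measure ℝ} {a : ℝ} (ha : 0 < a) {ν : ℕ∞}
    (hU : ∀ g : ℝ → ℂ, Mw w a ν g → TT g 0 ≠ 0) {f h : ℝ → ℂ} (hf : Mw w a ν f) (hh : Mw w a ν h) (z : ℂ) :
    TT f 0 * TT h z = TT h 0 * TT f z := by
  obtain ⟨f1, f2, f3⟩ := hf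
  obtain ⟨g1, g2, g3⟩ := hh
  have eq1 : QQ f * Nw w h = QQ h * Nw w f := le_antisymm (f3 h g1) (g3 f f1)
  have u1 : G.F.Hn a ν (fun x => TT f 0 * h x) := g1.smul _
  have v1 : G.F.Hn a ν (fun x => TT h 0 * f x) := f1.smul _
  have hQ := QQ_para hRH ha u1 v1
  have hN := Nw_para u1.1 v1.1 (Iw_smul (Iw_of_pos g2) (TT f 0)) (Iw_smul (Iw_of_pos f2) (TT h 0))
  rw [QQ_smul' hRH, QQ_smul' hRH] at hQ
  rw [Nw_smul, Nw_smul] at hN
  set k : ℝ → ℂ := fun x => TT f 0 * h x - TT h 0 * f x with hk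
  set k' : ℝ → ℂ := fun x => TT f 0 * h x + TT h 0 * f x with hk'
  have k1 : G.F.Hn a ν k := u1.sub v1
  have k1' : G.F.Hn a ν k' := u1.add v1
  have p1 := f3 k k1
  have p2 := f3 k' k1'
  have tot : (QQ k' + QQ k) * Nw w f = QQ f * (Nw w k' + Nw w k) := by
    rw [hQ, hN]
    linear_combination (-(2 : ℝ) * ‖TT f 0‖ ^ 2) * eq1
  have eq2 : QQ k * Nw w f = QQ f * Nw w k := by nlinarith
  have hz : ∀ z, TT k z = TT f 0 * TT h z - TT h 0 * TT f z := by
    intro z
    rw [hk, TT_sub u1.1 v1.1, TT_smul, TT_smul]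
  have hN0 : Nw w k = 0 := by
    by_contra hne
    have hpos : 0 < Nw w k := lt_of_le_of_ne (Nw_nonneg w k) (Ne.symm hne)
    refine hU k ⟨k1, hpos, fun g hg => ?_⟩ ?_
    · have h3 := f3 g hg
      have h4 : (QQ k * Nw w g) * Nw w f ≤ (QQ g * Nw w k) * Nw w f := by
        calc (QQ k * Nw w g) * Nw w f = (QQ f * Nw w g) * Nw w k := by
              linear_combination (Nw w g) * eq2
          _ ≤ (QQ g * Nw w f) * Nw w k := mul_le_mul_of_nonneg_right h3 hpos.le
          _ = _ := by ring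
      exact le_of_mul_le_mul_right h4 f2
    · rw [hz]; ring
  have hQ0 : QQ k = 0 := by
    rw [hN0, mul_zero] at eq2
    exact (mul_eq_zero.1 eq2).resolve_right f2.ne'
  have := Pool.Agent.Q24.CD.posZ hRH a ν k ha k1 hQ0.le z
  rw [hz] at this
  exact sub_eq_zero.1 this

theorem univP : S_UnivP := by
  intro hRH γ _ w _ a ν ha hU f hf
  have hf0 : TT f 0 ≠ 0 := hU f hf
  refine ⟨fun w0 hw0 => ?_, fun g hg => ⟨TT g 0 / TT f 0, fun z => ?_⟩⟩
  · by_contra hre
    have hre' : w0.re ≠ 0 := hre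
    obtain ⟨g, g1, g2, -⟩ := hf.1.div ha w0 (G.F.ad_off hre') hw0
    have h1 : G.F.Hn a ν (fun x => f x + (w0 + conj w0) * g x) := hf.1.add (g1.smul _)
    set h : ℝ → ℂ := fun x => f x + (w0 + conj w0) * g x with hh
    have hT : ∀ z, (z - w0) * TT h z = (z + conj w0) * TT f z := by
      intro z
      rw [hh, TT_add hf.1.1 (g1.smul _).1, TT_smul]
      linear_combination (w0 + conj w0) * g2 z
    have hnorm : ∀ z : ℂ, z.re = 0 → ‖TT h z‖ = ‖TT f z‖ := by
      intro z hz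
      have e1 : ‖z + conj w0‖ = ‖z - w0‖ := by
        have e2 : z + conj w0 = -conj (z - w0) := by
          apply Complex.ext
          · simp [hz]
          · simp
            ring
        rw [e2, norm_neg, RCLike.norm_conj]
      have hne : ‖z - w0‖ ≠ 0 := by
        rw [norm_ne_zero_iff, sub_ne_zero]
        intro h3
        rw [h3] at hz
        exact hre' hz
      have e3 := congrArg norm (hT z)
      rw [norm_mul, norm_mul, e1] at e3
      exact mul_left_cancel₀ hne e3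
    have hN : Nw w h = Nw w f := by
      unfold Nw
      refine integral_congr_ae (Eventually.of_forall fun x => ?_)
      simp only
      rw [hnorm _ (by simp)]
    have hQ : QQ h = QQ f := by
      rw [Pool.Agent.Q24.CD.QQ_crit hRH, Pool.Agent.Q24.CD.QQ_crit hRH]
      refine tsum_congr fun ρ => ?_
      rw [hnorm _ (by simp [hRH ρ])]
    have hM : Mw w a ν h := ⟨h1, by rw [hN]; exact hf.2.1, fun g hg => by
      rw [hN, hQ]; exact hf.2.2 g hg⟩
    have hp := pair hRH ha hU hf hM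
    -- the quotient of the two linear functions is constant
    set c : ℂ := TT h 0 / TT f 0 with hc
    have hlin : ∀ z, TT f z ≠ 0 → z + conj w0 = c * (z - w0) := by
      intro z hz
      have e1 : TT h z = c * TT f z := by
        rw [hc, div_mul_eq_mul_div, eq_div_iff hf0, mul_comm (TT h z)]
        exact hp z
      have e2 := hT z
      rw [e1] at e2
      have e3 : (z + conj w0) * TT f z = (c * (z - w0)) * TT f z := by rw [← e2]; ring
      exact mul_right_cancel₀ hz e3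
    have hcont : ContinuousAt (TT f) 0 := (differentiable_TT hf.1.1).continuous.continuousAt
    have hev : ∀ᶠ z in 𝓝 (0 : ℂ), TT f z ≠ 0 := hcont.eventually_ne hf0
    obtain ⟨r, hr, hball⟩ := Metric.eventually_nhds_iff.1 hev
    have ht : TT f ((r / 2 : ℝ) : ℂ) ≠ 0 := by
      apply hball
      rw [dist_zero_right, Complex.norm_real, Real.norm_eq_abs, abs_of_pos (by positivity)]
      linarith
    have l0 := hlin 0 hf0
    have l1 := hlin _ ht
    have hc1 : c = 1 := by
      have hr2 : ((r / 2 : ℝ) : ℂ) ≠ 0 := by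
        exact_mod_cast (by positivity : (r / 2 : ℝ) ≠ 0)
      have e : ((r / 2 : ℝ) : ℂ) * c = ((r / 2 : ℝ) : ℂ) * 1 := by linear_combination l0 - l1
      exact mul_left_cancel₀ hr2 e
    rw [hc1] at l0
    have l2 := congrArg Complex.re l0
    simp at l2
    apply hre'
    linarith
  · rw [div_mul_eq_mul_div, eq_div_iff hf0, mul_comm (TT g z)]
    exact pair hRH ha hU hf hg z

end Pool.Agent.Q251.EX
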